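import Pool.Agent.Q260.TE.Main
import Pool.Agent.Q260.TE.Red2
import Pool.Agent.Q260.TE.TaskParent
import Pool.Agent.Q260.TE.TaskTree
import Pool.Agent.Q260.TE.TaskForest
import Pool.Agent.Q260.TE.TaskDom
import Pool.Agent.Q260.TE.TaskSpec
import Pool.Agent.Q260.TE.TaskTop
import Pool.Agent.Q260.TE.TaskUpDom
import Pool.Agent.Q260.TE.TaskUpConn
import Pool.Agent.Q260.TE.TaskMinK
import Pool.Agent.Q260.TE.TaskAsymUp
import Pool.Agent.Q260.TE.TaskAsymLow
import Pool.Agent.Q260.TE.TaskPOne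
import Pool.Agent.Q260.TE.TaskPTwo
import Pool.Agent.Q260.TE.TaskPMul
import Pool.Agent.Q260.TE.TaskLapOne
import Pool.Agent.Q260.TE.TaskLapTwo
import Pool.Agent.Q260.TE.TaskDeg
import Pool.Agent.Q260.TE.TaskSubset
import Pool.Agent.Q260.TE.TaskEdges
import Pool.Agent.Q260.TE.TaskThr
import Pool.Agent.Q260.TE.TaskThrDom
import Pool.Agent.Q260.TE.Fin0

/-!
# MP_2d204e_co: the maximum Laplacian energy of (threshold) graphs with `m` edges
-/

set_option autoImplicit false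

open Finset

namespace Pool.Agent.Results.MP_2d204e_co.ThresholdMaximum

/-- Laplacian energy of a graph on `n` vertices: the sum of the `|λ - 2 m / n|` over the roots `λ`
of the characteristic polynomial of the Laplacian matrix, with multiplicity; `m` is the number of
edges. -/
noncomputable def lapEnergy {n : ℕ} (G : SimpleGraph (Fin n)) [DecidableRel G.Adj] : ℝ :=
  ((G.lapMatrix ℝ).charpoly.roots.map
    (fun x => |x - 2 * (G.edgeFinset.card : ℝ) / (n : ℝ)|)).sum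

/-- The Laplacian energies of the connected graphs with `m` edges and the property `P`. -/
def Energies (P : ∀ n : ℕ, SimpleGraph (Fin n) → Prop) (m : ℕ) : Set ℝ :=
  {e : ℝ | ∃ (n : ℕ) (G : SimpleGraph (Fin n)) (_ : DecidableRel G.Adj),
    G.Connected ∧ P n G ∧ G.edgeFinset.card = m ∧ lapEnergy G = e}

/-- `h(j) = m + C(j + 1, 2) - 2 m j / (m + 1 - C(j, 2))`; the number `2 h(j)` belongs to the pineapple
with `m` edges and a clique of `j + 1` vertices (it has `m + 1 - C(j, 2)` vertices). -/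
noncomputable def h (m j : ℕ) : ℝ :=
  m + ((j + 1).choose 2 : ℕ) - 2 * m * j / (m + 1 - (j.choose 2 : ℕ))

/-- `(j - 2) N² ≥ 2 (j (j - 1) - 1) N + (j (j - 1))² - 2 j (j - 1)` for `N = m + 1 - C(j, 2)`. -/
def Inc (m j : ℕ) : Prop :=
  2 * ((j : ℝ) * (j - 1) - 1) * (m + 1 - (j.choose 2 : ℕ)) + (j * (j - 1)) ^ 2 - 2 * (j * (j - 1)) ≤
    (j - 2) * (m + 1 - (j.choose 2 : ℕ)) ^ 2

/-- Let `m ≥ 1` and let `x = L_thr(m)` be the maximum of the Laplacian energies of the connected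
threshold graphs with `m` edges; it is also the maximum over all graphs with `m` edges and a vertex
adjacent to all others.  Then `x` is the largest of the numbers `2 h(j)`, `j ≥ 1`,
`C(j + 1, 2) ≤ m`; explicitly `x = 2 h(1) = 2 (m + 1 - 2m/(m + 1))` for `m ≤ 15`, and `x = 2 h(J)` for
`m ≥ 16`, where `J` is the greatest `j ≥ 3` with `C(j + 1, 2) ≤ m` and `Inc m j`.  The maximum `L(m)`
over all connected graphs with `m` edges is at most `x + 2 √(2m) + 8`, and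
`4m - 4 (2m)^(3/4) ≤ x ≤ 4m - 4 (2m)^(3/4) + 10 √(2m) + 10` (the lower bound for `m ≥ 8`). -/
theorem result (m : ℕ) (hm : 1 ≤ m) :
    ∃ x y : ℝ,
      IsGreatest (Energies (fun _ G => Pool.Agent.Q260.TE.Thr G univ) m) x ∧
      IsGreatest (Energies (fun n G => ∃ u : Fin n, ∀ v, v ≠ u → G.Adj u v) m) x ∧
      IsGreatest {z : ℝ | ∃ j : ℕ, 1 ≤ j ∧ (j + 1).choose 2 ≤ m ∧ z = 2 * h m j} x ∧
      (m ≤ 15 → x = 2 * (m + 1 - 2 * m / (m + 1))) ∧
      (16 ≤ m → ∃ J : ℕ, IsGreatest {j : ℕ | 3 ≤ j ∧ (j + 1).choose 2 ≤ m ∧ Inc m j} J ∧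
        x = 2 * h m J) ∧
      IsGreatest (Energies (fun _ _ => True) m) y ∧
      x ≤ y ∧ y ≤ x + 2 * √(2 * m) + 8 ∧
      (8 ≤ m → 4 * m - 4 * (2 * m : ℝ) ^ (3 / 4 : ℝ) ≤ x) ∧
      x ≤ 4 * m - 4 * (2 * m : ℝ) ^ (3 / 4 : ℝ) + 10 * √(2 * m) + 10 := by
  obtain ⟨x, y, h1, h2, h3, h4, h5, h6, h7, h8⟩ := Pool.Agent.Q260.TE.final
    Pool.Agent.Q260.TE.TaskParent.main Pool.Agent.Q260.TE.TaskTree.main
    Pool.Agent.Q260.TE.TaskForest.main Pool.Agent.Q260.TE.TaskSpec.main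
    Pool.Agent.Q260.TE.TaskTop.main Pool.Agent.Q260.TE.TaskUpConn.main
    Pool.Agent.Q260.TE.TaskDom.main Pool.Agent.Q260.TE.TaskUpDom.main
    Pool.Agent.Q260.TE.TaskPOne.main Pool.Agent.Q260.TE.TaskPTwo.main
    Pool.Agent.Q260.TE.TaskPMul.main Pool.Agent.Q260.TE.TaskLapOne.main
    Pool.Agent.Q260.TE.TaskLapTwo.main Pool.Agent.Q260.TE.TaskDeg.main
    Pool.Agent.Q260.TE.TaskSubset.main Pool.Agent.Q260.TE.TaskEdges.main
    Pool.Agent.Q260.TE.TaskThr.main Pool.Agent.Q260.TE.TaskThrDom.main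
    Pool.Agent.Q260.TE.Fin0.finiteEnergies Pool.Agent.Q260.TE.TaskMinK.main
    Pool.Agent.Q260.TE.TaskAsymUp.main Pool.Agent.Q260.TE.TaskAsymLow_proof m hm
  have hT : Energies (fun _ G => Pool.Agent.Q260.TE.Thr G univ) m =
      Pool.Agent.Q260.TE.ConnThr m := rfl
  have hC : Energies (fun _ _ => True) m = Pool.Agent.Q260.TE.Conn m := by
    ext z
    constructor
    · rintro ⟨n, G, inst, a, -, b, c⟩; exact ⟨n, G, inst, a, b, c⟩
    · rintro ⟨n, G, inst, a, b, c⟩; exact ⟨n, G, inst, a, trivial, b, c⟩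
  have hD : Energies (fun n G => ∃ u : Fin n, ∀ v, v ≠ u → G.Adj u v) m =
      Pool.Agent.Q260.TE.ConnDom m := by
    ext z
    constructor
    · rintro ⟨n, G, inst, -, a, b, c⟩; exact ⟨n, G, inst, a, b, c⟩
    · rintro ⟨n, G, inst, ⟨u, hu⟩, b, c⟩
      exact ⟨n, G, inst, Pool.Agent.Q260.TE.conn_of_dom hu, ⟨u, hu⟩, b, c⟩
  have hP := Pool.Agent.Q260.TE.Red.pine_greatest m x h1
  refine ⟨x, y, hT ▸ h2, hD ▸ h3, hP, fun hs => ?_,
    fun hl => Pool.Agent.Q260.TE.Red.large m hl x hP, hC ▸ h4, h5, h6, h7, h8⟩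
  rw [Pool.Agent.Q260.TE.Red.small m hm hs x hP]
  unfold Pool.Agent.Q260.TE.Red.h
  have a1 : (1 + 1 : ℕ).choose 2 = 1 := rfl
  have a2 : (1 : ℕ).choose 2 = 0 := rfl
  rw [a1, a2]
  push_cast
  ring

end Pool.Agent.Results.MP_2d204e_co.ThresholdMaximum
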